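import Pool.Agent.H83US.Cover

/-!
# Averaging over the parameters
-/

namespace H83US

open Finset

section avg
variable {p : ℕ} [Fact p.Prime] {K : ℕ}

/-- `n` is covered by `ω`. -/
def Cov (ω : Fin K → ZMod p × ZMod p) (n : ℕ) : Prop :=
  ∃ a ∈ AA ω, ∃ b ∈ AA ω, a + b = n

theorem cov_of_mem (ω : Fin K → ZMod p × ZMod p) (n : ℕ) (i : Fin K)
    (h : ω i ∈ GG (cf p i) n) : Cov ω n := by
  rw [mem_GG] at h
  obtain ⟨x, x', h⟩ := h
  exact ⟨_, (mem_AA ω _).2 ⟨i, x, rfl⟩, _, (mem_AA ω _).2 ⟨i, x', rfl⟩, h⟩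

open Classical in
theorem card_uncov_le (h2K : 2 * K < p) {n d : ℕ} (h1 : d ≤ n % (2 * p))
    (h2 : n % (2 * p) + d + 2 ≤ 2 * p) (h3 : d ≤ n / (2 * p)) (h4 : n / (2 * p) + d + 2 ≤ 2 * p) :
    ((univ.filter (fun ω : Fin K → ZMod p × ZMod p => ¬ Cov ω n)).card : ℝ) ≤
      ((p : ℝ) ^ 2 - (d : ℝ) ^ 2 / 2) ^ K := by
  have hsub : univ.filter (fun ω : Fin K → ZMod p × ZMod p => ¬ Cov ω n) ⊆
      Fintype.piFinset (fun i : Fin K => univ \ GG (cf p i) n) := by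
    intro ω hω
    rw [mem_filter] at hω
    rw [Fintype.mem_piFinset]
    intro i
    rw [mem_sdiff]
    exact ⟨mem_univ _, fun hi => hω.2 (cov_of_mem ω n i hi)⟩
  have hcard := Finset.card_le_card hsub
  rw [Fintype.card_piFinset] at hcard
  have hfac : ∀ i : Fin K, (((univ \ GG (cf p i) n).card : ℕ) : ℝ) ≤
      (p : ℝ) ^ 2 - (d : ℝ) ^ 2 / 2 := by
    intro i
    have hc : (2 : ZMod p) * cf p i ≠ 0 := by
      have := cf_add_ne h2K i i
      rwa [← two_mul] at this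
    have hG := card_GG (cf p i) hc h1 h2 h3 h4
    rw [Finset.card_sdiff_of_subset (subset_univ _)]
    rw [Finset.card_univ, Fintype.card_prod, ZMod.card]
    have hle : (GG (cf p i) n).card ≤ p * p := by
      have := Finset.card_le_univ (GG (cf p i) n)
      rwa [Fintype.card_prod, ZMod.card] at this
    rw [Nat.cast_sub hle]
    have hG' : (d : ℝ) ^ 2 ≤ 2 * ((GG (cf p i) n).card : ℝ) := by exact_mod_cast hG
    push_cast
    nlinarith
  calc ((univ.filter (fun ω : Fin K → ZMod p × ZMod p => ¬ Cov ω n)).card : ℝ)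
      ≤ ((∏ i : Fin K, (univ \ GG (cf p i) n).card : ℕ) : ℝ) := by exact_mod_cast hcard
    _ = ∏ i : Fin K, (((univ \ GG (cf p i) n).card : ℕ) : ℝ) := by push_cast; rfl
    _ ≤ ∏ _i : Fin K, ((p : ℝ) ^ 2 - (d : ℝ) ^ 2 / 2) :=
        Finset.prod_le_prod (fun i _ => Nat.cast_nonneg _) (fun i _ => hfac i)
    _ = ((p : ℝ) ^ 2 - (d : ℝ) ^ 2 / 2) ^ K := by
        rw [Finset.prod_const, Finset.card_univ, Fintype.card_fin]

/-- interior targets. -/
def Int' (p d : ℕ) : Finset ℕ := (range (4 * p ^ 2)).filter (fun n => d ≤ n % (2 * p) ∧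
  n % (2 * p) + d + 2 ≤ 2 * p ∧ d ≤ n / (2 * p) ∧ n / (2 * p) + d + 2 ≤ 2 * p)

open Classical in
theorem exists_omega (h2K : 2 * K < p) (d : ℕ) (hd : d ≤ p) :
    ∃ ω : Fin K → ZMod p × ZMod p,
      (((Int' p d).filter (fun n => ¬ Cov ω n)).card : ℝ) ≤
        4 * (p : ℝ) ^ 2 * (1 - (d : ℝ) ^ 2 / (2 * (p : ℝ) ^ 2)) ^ K := by
  have hp : (0 : ℝ) < p := by
    have := (Fact.out : p.Prime).pos
    exact_mod_cast this
  have hΩ : ((Finset.univ : Finset (Fin K → ZMod p × ZMod p)).card : ℝ) = ((p : ℝ) ^ 2) ^ K := by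
    rw [Finset.card_univ, Fintype.card_fun, Fintype.card_prod, ZMod.card, Fintype.card_fin]
    push_cast
    ring
  have hsum : ∑ ω : Fin K → ZMod p × ZMod p, (((Int' p d).filter (fun n => ¬ Cov ω n)).card : ℝ) ≤
      ∑ _ω : Fin K → ZMod p × ZMod p,
        4 * (p : ℝ) ^ 2 * (1 - (d : ℝ) ^ 2 / (2 * (p : ℝ) ^ 2)) ^ K := by
    rw [Finset.sum_const, nsmul_eq_mul, hΩ]
    have hswap : ∑ ω : Fin K → ZMod p × ZMod p,
        (((Int' p d).filter (fun n => ¬ Cov ω n)).card : ℝ) =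
        ∑ n ∈ Int' p d, ((univ.filter (fun ω : Fin K → ZMod p × ZMod p => ¬ Cov ω n)).card : ℝ) := by
      simp only [Finset.card_filter]
      push_cast
      rw [Finset.sum_comm]
    rw [hswap]
    have hterm : ∀ n ∈ Int' p d,
        ((univ.filter (fun ω : Fin K → ZMod p × ZMod p => ¬ Cov ω n)).card : ℝ) ≤
          ((p : ℝ) ^ 2 - (d : ℝ) ^ 2 / 2) ^ K := by
      intro n hn
      rw [Int', mem_filter] at hn
      exact card_uncov_le h2K hn.2.1 hn.2.2.1 hn.2.2.2.1 hn.2.2.2.2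
    refine (Finset.sum_le_sum hterm).trans ?_
    rw [Finset.sum_const, nsmul_eq_mul]
    have hI : ((Int' p d).card : ℝ) ≤ 4 * (p : ℝ) ^ 2 := by
      have : (Int' p d).card ≤ 4 * p ^ 2 := by
        refine le_trans (Finset.card_le_card (Finset.filter_subset _ _)) ?_
        rw [card_range]
      exact_mod_cast this
    have hnn : (0 : ℝ) ≤ ((p : ℝ) ^ 2 - (d : ℝ) ^ 2 / 2) ^ K := by
      refine pow_nonneg ?_ _
      have hd' : (d : ℝ) ≤ p := by exact_mod_cast hd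
      have hd0 : (0 : ℝ) ≤ d := Nat.cast_nonneg _
      nlinarith
    refine (mul_le_mul_of_nonneg_right hI hnn).trans (le_of_eq ?_)
    have h1 : (p : ℝ) ^ 2 - (d : ℝ) ^ 2 / 2 =
        (p : ℝ) ^ 2 * (1 - (d : ℝ) ^ 2 / (2 * (p : ℝ) ^ 2)) := by
      field_simp
    rw [h1, mul_pow]
    ring
  obtain ⟨ω, -, hω⟩ := Finset.exists_le_of_sum_le (s := (Finset.univ :
    Finset (Fin K → ZMod p × ZMod p))) ⟨fun _ => 0, mem_univ _⟩ hsum
  exact ⟨ω, hω⟩

end avg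

end H83US
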