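import Pool.Agent.H83US.Quad

/-!
# Each family covers a given target for a positive proportion of the parameters
-/

namespace H83US

open Finset

section cover
variable {p : ℕ} [Fact p.Prime]

/-- The parameters for which `n` is a sum of two elements of the same family. -/
def GG (c : ZMod p) (n : ℕ) : Finset (ZMod p × ZMod p) := by
  classical exact univ.filter (fun vw => ∃ x x' : ZMod p, el c vw x + el c vw x' = n)

theorem mem_GG (c : ZMod p) (n : ℕ) (vw : ZMod p × ZMod p) :
    vw ∈ GG c n ↔ ∃ x x' : ZMod p, el c vw x + el c vw x' = n := by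
  classical
  rw [GG, mem_filter]
  simp

/-- admissible `x`. -/
def XX (p s : ℕ) : Finset ℕ := (range p).filter (fun x => 2 * x < s ∧ s < x + p)

/-- admissible `y`. -/
def YY (p t : ℕ) : Finset ℕ := (range p).filter (fun y => y ≤ t ∧ t < y + p)

theorem card_XX {p s d : ℕ} (h1 : d ≤ s) (h2 : s + d + 2 ≤ 2 * p) : d ≤ 2 * (XX p s).card := by
  have h : Ico (s + 1 - p) ((s + 1) / 2) ⊆ XX p s := by
    intro x hx
    rw [mem_Ico] at hx
    rw [XX, mem_filter, mem_range]
    omega
  have h3 := Finset.card_le_card h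
  rw [Nat.card_Ico] at h3
  omega

theorem card_YY {p t d : ℕ} (h1 : d ≤ t) (h2 : t + d + 2 ≤ 2 * p) : d ≤ (YY p t).card := by
  have h : Ico (t + 1 - p) (min (t + 1) p) ⊆ YY p t := by
    intro x hx
    rw [mem_Ico] at hx
    rw [YY, mem_filter, mem_range]
    omega
  have h3 := Finset.card_le_card h
  rw [Nat.card_Ico] at h3
  omega

/-- The parameters for which `x ↦ y` and `s - x ↦ t - y`. -/
def par (c : ZMod p) (s t : ℕ) (xy : ℕ × ℕ) : ZMod p × ZMod p :=
  let x : ZMod p := (xy.1 : ZMod p)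
  let x' : ZMod p := ((s - xy.1 : ℕ) : ZMod p)
  let y : ZMod p := (xy.2 : ZMod p)
  let y' : ZMod p := ((t - xy.2 : ℕ) : ZMod p)
  let v : ZMod p := (y' - y - c * (x' ^ 2 - x ^ 2)) / (x' - x)
  (v, y - c * x ^ 2 - v * x)

theorem par_spec (c : ZMod p) {s t : ℕ} {xy : ℕ × ℕ} (hx : xy.1 ∈ XX p s) :
    qq c (par c s t xy) (xy.1 : ZMod p) = (xy.2 : ZMod p) ∧
      qq c (par c s t xy) ((s - xy.1 : ℕ) : ZMod p) = ((t - xy.2 : ℕ) : ZMod p) := by
  have hne : ((s - xy.1 : ℕ) : ZMod p) - (xy.1 : ZMod p) ≠ 0 := by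
    intro h0
    rw [sub_eq_zero] at h0
    rw [XX, mem_filter, mem_range] at hx
    rw [ZMod.natCast_eq_natCast_iff', Nat.mod_eq_of_lt (by omega), Nat.mod_eq_of_lt (by omega)] at h0
    omega
  constructor
  · simp only [qq, par]
    ring
  · simp only [qq, par]
    field_simp
    ring

theorem card_GG (c : ZMod p) (hc : 2 * c ≠ 0) {n d : ℕ} (h1 : d ≤ n % (2 * p))
    (h2 : n % (2 * p) + d + 2 ≤ 2 * p) (h3 : d ≤ n / (2 * p)) (h4 : n / (2 * p) + d + 2 ≤ 2 * p) :
    d ^ 2 ≤ 2 * (GG c n).card := by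
  classical
  set s := n % (2 * p) with hs
  set t := n / (2 * p) with ht
  have hn : n = s + 2 * p * t := by
    rw [hs, ht]; exact (Nat.mod_add_div _ _).symm
  have hsum : ∀ xy : ℕ × ℕ, xy.1 ∈ XX p s → xy.2 ∈ YY p t →
      el c (par c s t xy) (xy.1 : ZMod p) + el c (par c s t xy) ((s - xy.1 : ℕ) : ZMod p) = n := by
    intro xy hx hy
    obtain ⟨e1, e2⟩ := par_spec (p := p) c (t := t) hx
    rw [XX, mem_filter, mem_range] at hx
    rw [YY, mem_filter, mem_range] at hy
    rw [el, el, e1, e2, ZMod.val_natCast_of_lt hx.1, ZMod.val_natCast_of_lt hy.1,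
      ZMod.val_natCast_of_lt (by omega), ZMod.val_natCast_of_lt (by omega), hn]
    have h5 : xy.1 + (s - xy.1) = s := by omega
    have h6 : xy.2 + (t - xy.2) = t := by omega
    calc xy.1 + 2 * p * xy.2 + (s - xy.1 + 2 * p * (t - xy.2))
        = (xy.1 + (s - xy.1)) + 2 * p * (xy.2 + (t - xy.2)) := by ring
      _ = s + 2 * p * t := by rw [h5, h6]
  have hinj : Set.InjOn (par c s t) (↑(XX p s ×ˢ YY p t) : Set (ℕ × ℕ)) := by
    intro a ha b hb hab
    rw [Finset.mem_coe, mem_product] at ha hb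
    obtain ⟨a1, a2⟩ := par_spec (p := p) c (t := t) ha.1
    obtain ⟨b1, b2⟩ := par_spec (p := p) c (t := t) hb.1
    rw [hab] at a1 a2
    have hxa := ha.1
    have hxb := hb.1
    have hya := ha.2
    have hyb := hb.2
    rw [XX, mem_filter, mem_range] at hxa hxb
    rw [YY, mem_filter, mem_range] at hya hyb
    have ca : ((s - a.1 : ℕ) : ZMod p) = (s : ZMod p) - (a.1 : ZMod p) := by
      rw [Nat.cast_sub (by omega)]
    have cb : ((s - b.1 : ℕ) : ZMod p) = (s : ZMod p) - (b.1 : ZMod p) := by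
      rw [Nat.cast_sub (by omega)]
    have da : ((t - a.2 : ℕ) : ZMod p) = (t : ZMod p) - (a.2 : ZMod p) := by
      rw [Nat.cast_sub (by omega)]
    have db : ((t - b.2 : ℕ) : ZMod p) = (t : ZMod p) - (b.2 : ZMod p) := by
      rw [Nat.cast_sub (by omega)]
    rw [ca, da] at a2
    rw [cb, db] at b2
    simp only [qq] at a1 a2 b1 b2
    have key : 2 * c * (((a.1 : ZMod p) - (b.1 : ZMod p)) *
        ((a.1 : ZMod p) + (b.1 : ZMod p) - (s : ZMod p))) = 0 := by
      linear_combination a1 + a2 - b1 - b2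
    have h5 : (a.1 : ZMod p) = (b.1 : ZMod p) := by
      rcases mul_eq_zero.1 key with h | h
      · exact absurd h hc
      · rcases mul_eq_zero.1 h with h | h
        · exact sub_eq_zero.1 h
        · exfalso
          rw [sub_eq_zero, ← Nat.cast_add] at h
          have h6 : (((s - (a.1 + b.1) : ℕ)) : ZMod p) = 0 := by
            rw [Nat.cast_sub (by omega), h, sub_self]
          rw [ZMod.natCast_eq_zero_iff] at h6
          exact absurd (Nat.le_of_dvd (by omega) h6) (by omega)
    have h6 : a.1 = b.1 := by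
      rw [ZMod.natCast_eq_natCast_iff', Nat.mod_eq_of_lt (by omega),
        Nat.mod_eq_of_lt (by omega)] at h5
      exact h5
    have h7 : (a.2 : ZMod p) = (b.2 : ZMod p) := by
      rw [← a1, ← b1, h5]
    have h8 : a.2 = b.2 := by
      rw [ZMod.natCast_eq_natCast_iff', Nat.mod_eq_of_lt (by omega),
        Nat.mod_eq_of_lt (by omega)] at h7
      exact h7
    exact Prod.ext h6 h8
  have hcard : (XX p s ×ˢ YY p t).card ≤ (GG c n).card := by
    refine Finset.card_le_card_of_injOn (par c s t) ?_ hinj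
    intro a ha
    rw [Finset.mem_coe, mem_product] at ha
    rw [Finset.mem_coe, mem_GG]
    exact ⟨_, _, hsum a ha.1 ha.2⟩
  rw [card_product] at hcard
  have h5 := card_XX h1 h2
  have h6 := card_YY h3 h4
  calc d ^ 2 = d * d := sq d
    _ ≤ (2 * (XX p s).card) * (YY p t).card := Nat.mul_le_mul h5 h6
    _ = 2 * ((XX p s).card * (YY p t).card) := by ring
    _ ≤ 2 * (GG c n).card := Nat.mul_le_mul_left 2 hcard

end cover

end H83US
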