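import Pool.Agent.H83US.Gap

/-!
# One scale
-/

namespace H83US

open Finset

theorem pow_bound {u : ℝ} (hu0 : 0 ≤ u) (hu1 : u ≤ 1) (K : ℕ) {e : ℝ} (he : 0 < e)
    (h : 4 / e ≤ K * u) : (1 - u) ^ K ≤ e / 4 := by
  have h1 : 1 + (K : ℝ) * u ≤ (1 + u) ^ K := one_add_mul_le_pow (by linarith) K
  have h2 : (1 - u) ^ K * (1 + u) ^ K ≤ 1 := by
    rw [← mul_pow]
    refine pow_le_one₀ (mul_nonneg (by linarith) (by linarith)) ?_
    nlinarith
  have h3 : 0 ≤ (1 - u) ^ K := pow_nonneg (by linarith) _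
  have h4 : 4 / e ≤ (1 + u) ^ K := by linarith
  have h5 : (1 - u) ^ K * (4 / e) ≤ 1 := (mul_le_mul_of_nonneg_left h4 h3).trans h2
  rw [mul_div_assoc', div_le_one he] at h5
  linarith

theorem card_ext (p d : ℕ) (hp : 0 < p) :
    (range (4 * p ^ 2) \ Int' p d).card ≤ 2 * ((2 * d + 1) * (2 * p)) := by
  classical
  set S : Finset ℕ := range d ∪ Ico (2 * p - 1 - d) (2 * p) with hS
  have hScard : S.card ≤ 2 * d + 1 := by
    refine (Finset.card_union_le _ _).trans ?_
    rw [card_range, Nat.card_Ico]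
    omega
  have hsub : (range (4 * p ^ 2) \ Int' p d) ⊆
      ((S ×ˢ range (2 * p)) ∪ (range (2 * p) ×ˢ S)).image (fun st => st.1 + 2 * p * st.2) := by
    intro n hn
    rw [mem_sdiff, Int', mem_filter, mem_range] at hn
    obtain ⟨hn1, hn2⟩ := hn
    have hs : n % (2 * p) < 2 * p := Nat.mod_lt _ (by omega)
    have ht : n / (2 * p) < 2 * p := by
      rw [Nat.div_lt_iff_lt_mul (by omega)]
      calc n < 4 * p ^ 2 := hn1
        _ = 2 * p * (2 * p) := by ring
    rw [mem_image]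
    refine ⟨(n % (2 * p), n / (2 * p)), ?_, Nat.mod_add_div _ _⟩
    rw [mem_union, mem_product, mem_product, hS]
    simp only [mem_union, mem_range, mem_Ico]
    by_contra hcon
    apply hn2
    refine ⟨hn1, ?_⟩
    omega
  refine (Finset.card_le_card hsub).trans (Finset.card_image_le.trans
    ((Finset.card_union_le _ _).trans ?_))
  rw [card_product, card_product, card_range]
  nlinarith [Nat.mul_le_mul_right (2 * p) hScard]

theorem finite_scale (e : ℝ) (he : 0 < e) (he1 : e ≤ 1) (K : ℕ) (hK : 2048 / e ^ 3 ≤ K) (M : ℕ) :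
    ∃ (N : ℕ) (A : Finset ℕ), M < N ∧ (∀ a ∈ A, M < a ∧ a ≤ N) ∧
      (∀ n, ((A ×ˢ A).filter (fun ab : ℕ × ℕ => ab.1 + ab.2 = n)).card ≤ 2 * K ^ 2) ∧
      (∀ a ∈ A, ∀ b ∈ A, b ≠ a → a + M < b ∨ b + M < a) ∧
      (1 - e) * (2 * (N : ℝ)) ≤
        ((((A ×ˢ A).image (fun ab : ℕ × ℕ => ab.1 + ab.2)) ∩ Icc 1 (2 * N)).card : ℝ) := by
  classical
  set D : ℕ := 2 * K + 2 * (K ^ 2 * (2 * M + 1)) with hD
  obtain ⟨p, hp0, hpp⟩ := Nat.exists_infinite_primes
    (⌈(16 + (D : ℝ) * K) / e⌉₊ + 2 * K + M + 1)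
  have : Fact p.Prime := ⟨hpp⟩
  have h2K : 2 * K < p := by omega
  have hMp : M < p := by omega
  have hp1 : 1 ≤ p := by omega
  have hep : (16 + (D : ℝ) * K) ≤ e * p := by
    have h1 : (16 + (D : ℝ) * K) / e ≤ (⌈(16 + (D : ℝ) * K) / e⌉₊ : ℝ) := Nat.le_ceil _
    have h2 : ((⌈(16 + (D : ℝ) * K) / e⌉₊ : ℕ) : ℝ) ≤ (p : ℝ) := Nat.cast_le.2 (by omega)
    have h3 := h1.trans h2
    rw [div_le_iff₀ he] at h3
    linarith
  have hpR : (1 : ℝ) ≤ p := by exact_mod_cast hp1
  have hDK : (0 : ℝ) ≤ (D : ℝ) * K := by positivity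
  set d : ℕ := ⌊e * p / 8⌋₊ with hd
  have hd1 : (d : ℝ) ≤ e * p / 8 := Nat.floor_le (by positivity)
  have hd2 : e * p / 16 ≤ (d : ℝ) := by
    have := Nat.lt_floor_add_one (e * p / 8)
    rw [← hd] at this
    linarith
  have hdp : d ≤ p := by
    have h1 : (d : ℝ) ≤ p := by nlinarith
    exact_mod_cast h1
  obtain ⟨ω, hω⟩ := exists_omega (K := K) h2K d hdp
  refine ⟨2 * p ^ 2, AG M ω, ?_, ?_, ?_, ?_, ?_⟩
  · nlinarith
  · intro a ha
    rw [AG, mem_filter] at ha
    obtain ⟨i, x, hx⟩ := (mem_AA ω a).1 ha.1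
    refine ⟨by omega, ?_⟩
    rw [← hx]
    exact (el_lt _ _ _).le
  · intro n
    refine (Finset.card_le_card ?_).trans (rep_le h2K ω n)
    refine Finset.filter_subset_filter _ (Finset.product_subset_product ?_ ?_) <;>
      exact Finset.filter_subset _ _
  · intro a ha b hb hne
    rw [AG, mem_filter] at ha hb
    exact ha.2.2 b hb.1 hne
  · -- coverage
    set good := (((AG M ω ×ˢ AG M ω).image (fun ab : ℕ × ℕ => ab.1 + ab.2)) ∩
      Icc 1 (2 * (2 * p ^ 2))) with hgood
    set lost := ((AA ω \ AG M ω) ×ˢ AA ω).image (fun ab : ℕ × ℕ => ab.1 + ab.2) with hlost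
    have hsub : range (4 * p ^ 2) ⊆ {0} ∪ ((range (4 * p ^ 2) \ Int' p d) ∪
        (((Int' p d).filter (fun n => ¬ Cov ω n)) ∪ (lost ∪ good))) := by
      intro n hn
      simp only [mem_union, mem_singleton]
      by_cases h0 : n = 0
      · exact Or.inl h0
      right
      by_cases hI : n ∈ Int' p d
      · right
        by_cases hc : Cov ω n
        · right
          obtain ⟨a, ha, b, hb, hab⟩ := hc
          by_cases hla : a ∈ AG M ω
          · by_cases hlb : b ∈ AG M ω
            · right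
              rw [hgood, mem_inter, mem_image, mem_Icc]
              rw [mem_range] at hn
              exact ⟨⟨(a, b), by rw [mem_product]; exact ⟨hla, hlb⟩, hab⟩, by omega, by omega⟩
            · left
              rw [hlost, mem_image]
              refine ⟨(b, a), ?_, ?_⟩
              · rw [mem_product, mem_sdiff]
                exact ⟨⟨hb, hlb⟩, ha⟩
              · show b + a = n
                omega
          · left
            rw [hlost, mem_image]
            refine ⟨(a, b), ?_, hab⟩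
            rw [mem_product, mem_sdiff]
            exact ⟨⟨ha, hla⟩, hb⟩
        · left
          rw [mem_filter]
          exact ⟨hI, hc⟩
      · left
        rw [mem_sdiff]
        exact ⟨hn, hI⟩
    have hcard := Finset.card_le_card hsub
    rw [card_range] at hcard
    have h1 := Finset.card_union_le ({0} : Finset ℕ) ((range (4 * p ^ 2) \ Int' p d) ∪
        (((Int' p d).filter (fun n => ¬ Cov ω n)) ∪ (lost ∪ good)))
    have h2 := Finset.card_union_le (range (4 * p ^ 2) \ Int' p d)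
        (((Int' p d).filter (fun n => ¬ Cov ω n)) ∪ (lost ∪ good))
    have h3 := Finset.card_union_le ((Int' p d).filter (fun n => ¬ Cov ω n)) (lost ∪ good)
    have h4 := Finset.card_union_le lost good
    rw [card_singleton] at h1
    have h5 : (range (4 * p ^ 2) \ Int' p d).card ≤ 2 * ((2 * d + 1) * (2 * p)) :=
      card_ext p d (by omega)
    have h6 : lost.card ≤ D * (K * p) := by
      refine Finset.card_image_le.trans ?_
      rw [card_product]
      exact Nat.mul_le_mul (card_sdiff_AG h2K hMp ω) (card_AA_le ω)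
    have h7 : 4 * p ^ 2 ≤ 1 + (2 * ((2 * d + 1) * (2 * p)) +
        (((Int' p d).filter (fun n => ¬ Cov ω n)).card + (D * (K * p) + good.card))) := by
      omega
    have h8 : (4 * (p : ℝ) ^ 2) ≤ 1 + (2 * ((2 * (d : ℝ) + 1) * (2 * p)) +
        ((((Int' p d).filter (fun n => ¬ Cov ω n)).card : ℝ) +
          ((D : ℝ) * (K * p) + (good.card : ℝ)))) := by
      exact_mod_cast h7
    have hu1 : (d : ℝ) ^ 2 / (2 * (p : ℝ) ^ 2) ≤ 1 := by
      rw [div_le_one (by positivity)]
      have : (d : ℝ) ≤ p := by exact_mod_cast hdp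
      have hd0 : (0 : ℝ) ≤ d := Nat.cast_nonneg _
      nlinarith
    have hu2 : e ^ 2 / 512 ≤ (d : ℝ) ^ 2 / (2 * (p : ℝ) ^ 2) := by
      rw [div_le_div_iff₀ (by norm_num) (by positivity)]
      have h9 : (e * p / 16) ^ 2 ≤ (d : ℝ) ^ 2 := pow_le_pow_left₀ (by positivity) hd2 2
      nlinarith
    have hKu : 4 / e ≤ K * ((d : ℝ) ^ 2 / (2 * (p : ℝ) ^ 2)) := by
      have h9 : 2048 / e ^ 3 * (e ^ 2 / 512) = 4 / e := by
        field_simp
        norm_num
      rw [← h9]
      exact mul_le_mul hK hu2 (by positivity) (Nat.cast_nonneg _)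
    have hpw := pow_bound (by positivity) hu1 K he hKu
    have h10 : (((Int' p d).filter (fun n => ¬ Cov ω n)).card : ℝ) ≤ e * (p : ℝ) ^ 2 := by
      refine hω.trans ?_
      calc 4 * (p : ℝ) ^ 2 * (1 - (d : ℝ) ^ 2 / (2 * (p : ℝ) ^ 2)) ^ K
          ≤ 4 * (p : ℝ) ^ 2 * (e / 4) := mul_le_mul_of_nonneg_left hpw (by positivity)
        _ = e * (p : ℝ) ^ 2 := by ring
    have h11 : 8 * (d : ℝ) * p ≤ e * (p : ℝ) ^ 2 := by nlinarith
    have h12 : (16 + (D : ℝ) * K) * p ≤ e * p * p := mul_le_mul_of_nonneg_right hep (by linarith)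
    push_cast
    nlinarith

end H83US
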