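import Pool.Agent.H83US.Avg

/-!
# Removing the elements with close neighbours
-/

namespace H83US

open Finset

section gap
variable {p : ℕ} [Fact p.Prime] {K : ℕ}

/-- The elements at least `2p` without another element at distance at most `M`. -/
def AG (M : ℕ) (ω : Fin K → ZMod p × ZMod p) : Finset ℕ :=
  (AA ω).filter (fun a => 2 * p ≤ a ∧ ∀ b ∈ AA ω, b ≠ a → a + M < b ∨ b + M < a)

/-- Elements with `y = 0`. -/
def T1 (ω : Fin K → ZMod p × ZMod p) : Finset ℕ :=
  univ.biUnion (fun i : Fin K => (univ.filter (fun x : ZMod p => cf p i * x ^ 2 +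
    (ω i).1 * x + (ω i).2 = 0)).image (fun x => el (cf p i) (ω i) x))

/-- Close pairs. -/
noncomputable def T2 (M : ℕ) (ω : Fin K → ZMod p × ZMod p) : Finset ℕ :=
  (((univ : Finset (Fin K × Fin K)) ×ˢ (Icc (-(M : ℤ)) M)).filter
    (fun z => z.1.1 ≠ z.1.2 ∨ z.2 ≠ 0)).biUnion (fun z =>
      (univ.filter (fun x : ZMod p => (cf p z.1.2 - cf p z.1.1) * x ^ 2 +
        (2 * cf p z.1.2 * (z.2 : ZMod p) + (ω z.1.2).1 - (ω z.1.1).1) * x +
        (cf p z.1.2 * (z.2 : ZMod p) ^ 2 + (ω z.1.2).1 * (z.2 : ZMod p) + (ω z.1.2).2 -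
          (ω z.1.1).2) = 0)).image (fun x => el (cf p z.1.1) (ω z.1.1) x))

theorem card_T1 (h2K : 2 * K < p) (ω : Fin K → ZMod p × ZMod p) : (T1 ω).card ≤ 2 * K := by
  refine le_trans Finset.card_biUnion_le ?_
  refine le_trans (Finset.sum_le_sum (fun i _ => le_trans Finset.card_image_le
    (card_roots_le _ _ _ (Or.inl (cf_ne h2K i))))) ?_
  rw [Finset.sum_const, Finset.card_univ, Fintype.card_fin, smul_eq_mul, mul_comm]

theorem card_T2 (h2K : 2 * K < p) {M : ℕ} (hM : M < p) (ω : Fin K → ZMod p × ZMod p) :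
    (T2 M ω).card ≤ 2 * (K ^ 2 * (2 * M + 1)) := by
  refine le_trans Finset.card_biUnion_le ?_
  have h1 : ∀ z ∈ (((univ : Finset (Fin K × Fin K)) ×ˢ (Icc (-(M : ℤ)) M)).filter
    (fun z => z.1.1 ≠ z.1.2 ∨ z.2 ≠ 0)), ((univ.filter (fun x : ZMod p =>
        (cf p z.1.2 - cf p z.1.1) * x ^ 2 +
        (2 * cf p z.1.2 * (z.2 : ZMod p) + (ω z.1.2).1 - (ω z.1.1).1) * x +
        (cf p z.1.2 * (z.2 : ZMod p) ^ 2 + (ω z.1.2).1 * (z.2 : ZMod p) + (ω z.1.2).2 -
          (ω z.1.1).2) = 0)).image (fun x => el (cf p z.1.1) (ω z.1.1) x)).card ≤ 2 := by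
    intro z hz
    refine le_trans Finset.card_image_le (card_roots_le _ _ _ ?_)
    rw [mem_filter, mem_product, mem_Icc] at hz
    obtain ⟨⟨-, hz1, hz2⟩, hz3⟩ := hz
    by_cases hij : z.1.1 = z.1.2
    · right
      have hz0 : z.2 ≠ 0 := by
        rcases hz3 with h | h
        · exact absurd hij h
        · exact h
      rw [← hij]
      have h2 : 2 * cf p z.1.1 * (z.2 : ZMod p) + (ω z.1.1).1 - (ω z.1.1).1 =
          (cf p z.1.1 + cf p z.1.1) * (z.2 : ZMod p) := by ring
      rw [h2]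
      refine mul_ne_zero (cf_add_ne h2K _ _) ?_
      intro h0
      rw [ZMod.intCast_zmod_eq_zero_iff_dvd] at h0
      refine hz0 (Int.eq_zero_of_abs_lt_dvd h0 ?_)
      rw [abs_lt]
      omega
    · left
      exact cf_sub_ne h2K hij
  refine le_trans (Finset.sum_le_sum h1) ?_
  rw [Finset.sum_const, smul_eq_mul, mul_comm]
  refine Nat.mul_le_mul_left 2 (le_trans (Finset.card_le_card (Finset.filter_subset _ _)) ?_)
  rw [card_product, Finset.card_univ, Fintype.card_prod, Fintype.card_fin, Int.card_Icc]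
  have h3 : ((M : ℤ) + 1 - (-(M : ℤ))).toNat = 2 * M + 1 := by omega
  rw [h3, sq]

theorem sdiff_subset' (M : ℕ) (hM : M < p) (ω : Fin K → ZMod p × ZMod p) :
    AA ω \ AG M ω ⊆ T1 ω ∪ T2 M ω := by
  intro a ha
  rw [mem_sdiff, AG, mem_filter] at ha
  obtain ⟨haA, hna⟩ := ha
  obtain ⟨i, x, rfl⟩ := (mem_AA ω a).1 haA
  rw [mem_union]
  by_cases hlt : el (cf p i) (ω i) x < 2 * p
  · left
    have hy : (qq (cf p i) (ω i) x).val = 0 := by
      by_contra h0
      have h1 : 1 ≤ (qq (cf p i) (ω i) x).val := Nat.one_le_iff_ne_zero.2 h0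
      have h2 : 2 * p * 1 ≤ 2 * p * (qq (cf p i) (ω i) x).val := Nat.mul_le_mul_left _ h1
      rw [el] at hlt
      omega
    rw [ZMod.val_eq_zero] at hy
    rw [T1, mem_biUnion]
    refine ⟨i, mem_univ _, ?_⟩
    rw [mem_image]
    exact ⟨x, by rw [mem_filter]; exact ⟨mem_univ _, hy⟩, rfl⟩
  · right
    have h1 : ∃ b ∈ AA ω, b ≠ el (cf p i) (ω i) x ∧ ¬ (el (cf p i) (ω i) x + M < b ∨
        b + M < el (cf p i) (ω i) x) := by
      by_contra hcon
      apply hna
      refine ⟨haA, by omega, ?_⟩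
      intro b hb hne
      by_contra h2
      exact hcon ⟨b, hb, hne, h2⟩
    obtain ⟨b, hb, hne, hclose⟩ := h1
    obtain ⟨j, x', rfl⟩ := (mem_AA ω b).1 hb
    have hx := ZMod.val_lt x
    have hx' := ZMod.val_lt x'
    have hyy : (qq (cf p i) (ω i) x).val = (qq (cf p j) (ω j) x').val := by
      rw [el, el] at hclose
      by_contra hyne
      rcases lt_or_gt_of_ne hyne with h | h
      · have h3 : 2 * p * ((qq (cf p i) (ω i) x).val + 1) ≤
          2 * p * (qq (cf p j) (ω j) x').val := Nat.mul_le_mul_left _ h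
        rw [Nat.mul_add, Nat.mul_one] at h3
        omega
      · have h3 : 2 * p * ((qq (cf p j) (ω j) x').val + 1) ≤
          2 * p * (qq (cf p i) (ω i) x).val := Nat.mul_le_mul_left _ h
        rw [Nat.mul_add, Nat.mul_one] at h3
        omega
    have hy2 : qq (cf p i) (ω i) x = qq (cf p j) (ω j) x' := ZMod.val_injective p hyy
    set h : ℤ := (x'.val : ℤ) - (x.val : ℤ) with hh
    have hhM : -(M : ℤ) ≤ h ∧ h ≤ M := by
      rw [el, el, hyy] at hclose
      omega
    have hxh : x' = x + (h : ZMod p) := by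
      rw [hh]
      push_cast
      rw [ZMod.natCast_zmod_val, ZMod.natCast_zmod_val]
      ring
    rw [T2, mem_biUnion]
    refine ⟨((i, j), h), ?_, ?_⟩
    · rw [mem_filter, mem_product, mem_Icc]
      refine ⟨⟨mem_univ _, hhM⟩, ?_⟩
      by_contra hcon
      push Not at hcon
      obtain ⟨hij, h0⟩ := hcon
      have hij' : i = j := hij
      have h0' : h = 0 := h0
      apply hne
      rw [hxh, h0', hij']
      simp
    · rw [mem_image]
      refine ⟨x, ?_, rfl⟩
      rw [mem_filter]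
      refine ⟨mem_univ _, ?_⟩
      rw [hxh] at hy2
      simp only [qq] at hy2
      linear_combination -hy2

theorem card_sdiff_AG (h2K : 2 * K < p) {M : ℕ} (hM : M < p) (ω : Fin K → ZMod p × ZMod p) :
    (AA ω \ AG M ω).card ≤ 2 * K + 2 * (K ^ 2 * (2 * M + 1)) :=
  (Finset.card_le_card (sdiff_subset' M hM ω)).trans ((Finset.card_union_le _ _).trans
    (Nat.add_le_add (card_T1 h2K ω) (card_T2 h2K hM ω)))

end gap

end H83US
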