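import Pool.Agent.H83US.Finite

/-!
# Gluing the scales
-/

namespace H83US

open Finset

theorem glue (C : ℕ) (e : ℝ) (h : ∀ M : ℕ, ∃ (N : ℕ) (A : Finset ℕ), M < N ∧
      (∀ a ∈ A, M < a ∧ a ≤ N) ∧
      (∀ n, ((A ×ˢ A).filter (fun ab : ℕ × ℕ => ab.1 + ab.2 = n)).card ≤ C) ∧
      (∀ a ∈ A, ∀ b ∈ A, b ≠ a → a + M < b ∨ b + M < a) ∧
      (1 - e) * (2 * (N : ℝ)) ≤
        ((((A ×ˢ A).image (fun ab : ℕ × ℕ => ab.1 + ab.2)) ∩ Icc 1 (2 * N)).card : ℝ)) :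
    ∃ A : Set ℕ, (∀ n, {ab : ℕ × ℕ | ab.1 ∈ A ∧ ab.2 ∈ A ∧ ab.1 + ab.2 = n}.ncard ≤ C + 2) ∧
      ∀ N0 : ℕ, ∃ N : ℕ, N0 ≤ N ∧ (1 - e) * (N : ℝ) ≤
        (({n : ℕ | ∃ a ∈ A, ∃ b ∈ A, a + b = n} ∩ Set.Icc 1 N).ncard : ℝ) := by
  classical
  choose Nf Af h1 h2 h3 h4 h5 using h
  let M : ℕ → ℕ := fun k => Nat.rec 0 (fun _ m => 2 * Nf m) k
  have hM : ∀ k, M (k + 1) = 2 * Nf (M k) := fun k => rfl
  have hlt : ∀ k, M k < M (k + 1) := by
    intro k
    rw [hM]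
    have := h1 (M k)
    omega
  have hmono : StrictMono M := strictMono_nat_of_lt_succ hlt
  have huniq : ∀ {k m n : ℕ}, M k < n → n ≤ M (k + 1) → M m < n → n ≤ M (m + 1) → m = k := by
    intro k m n a1 a2 a3 a4
    rcases lt_trichotomy m k with hlt' | heq | hgt
    · have := hmono.monotone (Nat.succ_le_of_lt hlt')
      simp only [Nat.succ_eq_add_one] at this
      omega
    · exact heq
    · have := hmono.monotone (Nat.succ_le_of_lt hgt)
      simp only [Nat.succ_eq_add_one] at this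
      omega
  refine ⟨{a | ∃ k, a ∈ Af (M k)}, ?_, ?_⟩
  · intro n
    set R : Set (ℕ × ℕ) := {ab : ℕ × ℕ | ab.1 ∈ {a | ∃ k, a ∈ Af (M k)} ∧
      ab.2 ∈ {a | ∃ k, a ∈ Af (M k)} ∧ ab.1 + ab.2 = n} with hR
    -- level of a representation
    have hlev : ∀ ab ∈ R, ∃ k, M k < n ∧ n ≤ M (k + 1) ∧
        ((ab.1 ∈ Af (M k) ∧ ab.2 ∈ Af (M k)) ∨ (ab.1 ∈ Af (M k) ∧ ab.2 ≤ M k) ∨
          (ab.2 ∈ Af (M k) ∧ ab.1 ≤ M k)) := by
      rintro ⟨a, b⟩ ⟨⟨i, hi⟩, ⟨j, hj⟩, hab⟩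
      simp only at hi hj hab
      have ai := h2 (M i) a hi
      have bj := h2 (M j) b hj
      rcases lt_trichotomy i j with hij | hij | hij
      · have hm := hmono.monotone (Nat.succ_le_of_lt hij)
        simp only [Nat.succ_eq_add_one] at hm
        have e1 := hM i
        have e2 := hM j
        exact ⟨j, by omega, by omega, Or.inr (Or.inr ⟨hj, by simp only; omega⟩)⟩
      · subst hij
        have e1 := hM i
        exact ⟨i, by omega, by omega, Or.inl ⟨hi, hj⟩⟩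
      · have hm := hmono.monotone (Nat.succ_le_of_lt hij)
        simp only [Nat.succ_eq_add_one] at hm
        have e1 := hM i
        have e2 := hM j
        exact ⟨i, by omega, by omega, Or.inr (Or.inl ⟨hi, by simp only; omega⟩)⟩
    rcases Set.eq_empty_or_nonempty R with hE | ⟨ab0, hab0⟩
    · rw [hE]; simp
    · obtain ⟨k, hk1, hk2, -⟩ := hlev ab0 hab0
      set F := Af (M k) with hF
      set P0 : Set (ℕ × ℕ) := ↑((F ×ˢ F).filter (fun ab : ℕ × ℕ => ab.1 + ab.2 = n)) with hP0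
      set P1 : Set (ℕ × ℕ) := {ab | ab.1 ∈ F ∧ ab.2 ≤ M k ∧ ab.1 + ab.2 = n} with hP1
      set P2 : Set (ℕ × ℕ) := {ab | ab.2 ∈ F ∧ ab.1 ≤ M k ∧ ab.1 + ab.2 = n} with hP2
      have hs1 : P1.Subsingleton := by
        rintro ⟨a, b⟩ ⟨ha, hb, hab⟩ ⟨c, d⟩ ⟨hc, hd, hcd⟩
        simp only at ha hb hab hc hd hcd
        have hac : c = a := by
          by_contra hne
          have := h4 (M k) a ha c hc hne
          omega
        subst hac
        have : b = d := by omega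
        rw [this]
      have hs2 : P2.Subsingleton := by
        rintro ⟨a, b⟩ ⟨ha, hb, hab⟩ ⟨c, d⟩ ⟨hc, hd, hcd⟩
        simp only at ha hb hab hc hd hcd
        have hac : d = b := by
          by_contra hne
          have := h4 (M k) b ha d hc hne
          omega
        subst hac
        have : a = c := by omega
        rw [this]
      have hsub : R ⊆ P0 ∪ (P1 ∪ P2) := by
        intro ab hab
        obtain ⟨m, hm1, hm2, hm3⟩ := hlev ab hab
        have hmk : m = k := huniq hk1 hk2 hm1 hm2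
        subst hmk
        have hsum : ab.1 + ab.2 = n := hab.2.2
        rcases hm3 with ⟨x, y⟩ | ⟨x, y⟩ | ⟨x, y⟩
        · left
          rw [hP0, Finset.mem_coe, mem_filter, mem_product]
          exact ⟨⟨x, y⟩, hsum⟩
        · right; left
          exact ⟨x, y, hsum⟩
        · right; right
          exact ⟨x, y, hsum⟩
      have hfin : (P0 ∪ (P1 ∪ P2)).Finite :=
        (Finset.finite_toSet _).union (hs1.finite.union hs2.finite)
      have e0 : P0.ncard ≤ C := by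
        rw [hP0, Set.ncard_coe_finset]
        exact h3 (M k) n
      have e1 : P1.ncard ≤ 1 := (Set.ncard_le_one hs1.finite).2 (fun a ha b hb => hs1 ha hb)
      have e2 : P2.ncard ≤ 1 := (Set.ncard_le_one hs2.finite).2 (fun a ha b hb => hs2 ha hb)
      have e3 := Set.ncard_le_ncard hsub hfin
      have e4 := Set.ncard_union_le P0 (P1 ∪ P2)
      have e5 := Set.ncard_union_le P1 P2
      omega
  · intro N0
    have hid : ∀ k, k ≤ M k := fun k => hmono.le_apply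
    refine ⟨2 * Nf (M N0), ?_, ?_⟩
    · have a1 := hid N0
      have a2 := h1 (M N0)
      omega
    · have h6 := h5 (M N0)
      push_cast
      refine h6.trans ?_
      rw [← Set.ncard_coe_finset]
      refine Nat.cast_le.2 (Set.ncard_le_ncard ?_ ((Set.finite_Icc _ _).inter_of_right _))
      intro n hn
      rw [Finset.mem_coe, mem_inter, mem_image, mem_Icc] at hn
      obtain ⟨⟨⟨a, b⟩, hab, hs⟩, hn1, hn2⟩ := hn
      rw [mem_product] at hab
      exact ⟨⟨a, ⟨N0, hab.1⟩, b, ⟨N0, hab.2⟩, hs⟩, hn1, hn2⟩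

/-- The upper density version. -/
theorem main (e : ℝ) (he : 0 < e) (he1 : e ≤ 1) :
    ∃ A : Set ℕ, (∀ n, ({ab : ℕ × ℕ | ab.1 ∈ A ∧ ab.2 ∈ A ∧ ab.1 + ab.2 = n}.ncard : ℝ) ≤
        10 ^ 7 / e ^ 6) ∧
      ∀ N0 : ℕ, ∃ N : ℕ, N0 ≤ N ∧ (1 - e) * (N : ℝ) ≤
        (({n : ℕ | ∃ a ∈ A, ∃ b ∈ A, a + b = n} ∩ Set.Icc 1 N).ncard : ℝ) := by
  set K : ℕ := ⌈2048 / e ^ 3⌉₊ with hK
  obtain ⟨A, hA1, hA2⟩ := glue (2 * K ^ 2) e
    (fun M => finite_scale e he he1 K (Nat.le_ceil _) M)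
  refine ⟨A, fun n => ?_, hA2⟩
  have h1 : ({ab : ℕ × ℕ | ab.1 ∈ A ∧ ab.2 ∈ A ∧ ab.1 + ab.2 = n}.ncard : ℝ) ≤
      2 * (K : ℝ) ^ 2 + 2 := by exact_mod_cast hA1 n
  have h2 : (K : ℝ) ≤ 2049 / e ^ 3 := by
    have h3 := (Nat.ceil_lt_add_one (show 0 ≤ 2048 / e ^ 3 by positivity)).le
    rw [← hK] at h3
    have h4 : 1 ≤ 1 / e ^ 3 := by
      rw [le_div_iff₀ (by positivity), one_mul]
      exact pow_le_one₀ he.le he1
    have h5 : 2049 / e ^ 3 = 2048 / e ^ 3 + 1 / e ^ 3 := by ring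
    rw [h5]
    linarith
  have h6 : (K : ℝ) ^ 2 ≤ (2049 / e ^ 3) ^ 2 := pow_le_pow_left₀ (Nat.cast_nonneg _) h2 2
  have h7 : 1 ≤ 1 / e ^ 6 := by
    rw [le_div_iff₀ (by positivity), one_mul]
    exact pow_le_one₀ he.le he1
  have h8 : (2049 / e ^ 3) ^ 2 = 4198401 * (1 / e ^ 6) := by
    field_simp
    norm_num
  have h9 : (10 : ℝ) ^ 7 / e ^ 6 = 10000000 * (1 / e ^ 6) := by ring
  rw [h9]
  rw [h8] at h6
  linarith

end H83US
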