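import Mathlib

/-!
# Quadratic pieces: the representation function is bounded

`e ω i x = x + 2 p y_i(x)` with `y_i(x) = (i+1) x² + v_i x + w_i mod p`.
-/

namespace H83US

open Finset

section quad
variable {p : ℕ} [Fact p.Prime]

/-- A nonconstant polynomial of degree at most two has at most two roots. -/
theorem card_roots_le (a b c : ZMod p) (h : a ≠ 0 ∨ b ≠ 0) :
    (univ.filter (fun x : ZMod p => a * x ^ 2 + b * x + c = 0)).card ≤ 2 := by
  classical
  set P : Polynomial (ZMod p) :=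
    Polynomial.C a * Polynomial.X ^ 2 + Polynomial.C b * Polynomial.X + Polynomial.C c with hP
  have hdeg : P.natDegree ≤ 2 := Polynomial.natDegree_quadratic_le
  have hne : P ≠ 0 := by
    intro h0
    have h2 : P.coeff 2 = a := by
      rw [hP]; simp [Polynomial.coeff_X, Polynomial.coeff_C]
    have h1 : P.coeff 1 = b := by
      rw [hP]; simp [Polynomial.coeff_X, Polynomial.coeff_C]
    rw [h0] at h1 h2
    simp at h1 h2
    rcases h with h | h
    · exact h h2.symm
    · exact h h1.symm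
  refine le_trans (Finset.card_le_card (t := P.roots.toFinset) ?_)
    (le_trans (Multiset.toFinset_card_le _) (le_trans (Polynomial.card_roots' P) hdeg))
  intro x hx
  rw [mem_filter] at hx
  rw [Multiset.mem_toFinset, Polynomial.mem_roots hne, Polynomial.IsRoot.def]
  rw [hP]
  simpa using hx.2

/-- The quadratic polynomial. -/
def qq (c : ZMod p) (vw : ZMod p × ZMod p) (x : ZMod p) : ZMod p :=
  c * x ^ 2 + vw.1 * x + vw.2

/-- The element of the set attached to `x`. -/
def el (c : ZMod p) (vw : ZMod p × ZMod p) (x : ZMod p) : ℕ :=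
  x.val + 2 * p * (qq c vw x).val

theorem el_add_mod (c c' : ZMod p) (vw vw' : ZMod p × ZMod p) (x x' : ZMod p) (n : ℕ)
    (h : el c vw x + el c' vw' x' = n) :
    n % (2 * p) = x.val + x'.val ∧ n / (2 * p) = (qq c vw x).val + (qq c' vw' x').val := by
  have hp : 0 < p := (Fact.out : p.Prime).pos
  have hx := ZMod.val_lt x
  have hx' := ZMod.val_lt x'
  have h1 : n = (x.val + x'.val) + 2 * p * ((qq c vw x).val + (qq c' vw' x').val) := by
    rw [← h, el, el]; ring
  have h2 : x.val + x'.val < 2 * p := by omega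
  constructor
  · rw [h1, Nat.add_mul_mod_self_left, Nat.mod_eq_of_lt h2]
  · rw [h1, Nat.add_mul_div_left _ _ (by omega), Nat.div_eq_of_lt h2, zero_add]

theorem el_add_cast (c c' : ZMod p) (vw vw' : ZMod p × ZMod p) (x x' : ZMod p) (n : ℕ)
    (h : el c vw x + el c' vw' x' = n) :
    x + x' = ((n % (2 * p) : ℕ) : ZMod p) ∧
      qq c vw x + qq c' vw' x' = ((n / (2 * p) : ℕ) : ZMod p) := by
  obtain ⟨h1, h2⟩ := el_add_mod c c' vw vw' x x' n h
  rw [h1, h2]
  constructor
  · rw [Nat.cast_add, ZMod.natCast_zmod_val, ZMod.natCast_zmod_val]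
  · rw [Nat.cast_add, ZMod.natCast_zmod_val, ZMod.natCast_zmod_val]

/-- For fixed coefficients and fixed sum there are at most two solutions. -/
theorem card_sol_le (c c' : ZMod p) (vw vw' : ZMod p × ZMod p) (n : ℕ) (hc : c + c' ≠ 0) :
    (univ.filter (fun xx : ZMod p × ZMod p => el c vw xx.1 + el c' vw' xx.2 = n)).card ≤ 2 := by
  classical
  set s : ZMod p := ((n % (2 * p) : ℕ) : ZMod p) with hs
  set t : ZMod p := ((n / (2 * p) : ℕ) : ZMod p) with ht
  refine le_trans (Finset.card_le_card_of_injOn (fun xx => xx.1)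
    (t := univ.filter (fun x : ZMod p => (c + c') * x ^ 2 + (vw.1 - 2 * c' * s - vw'.1) * x +
      (vw.2 + c' * s ^ 2 + vw'.1 * s + vw'.2 - t) = 0)) ?_ ?_) (card_roots_le _ _ _ (Or.inl hc))
  · intro xx hxx
    rw [Finset.mem_coe, mem_filter] at hxx
    obtain ⟨h1, h2⟩ := el_add_cast c c' vw vw' xx.1 xx.2 n hxx.2
    rw [Finset.mem_coe, mem_filter]
    refine ⟨mem_univ _, ?_⟩
    have h3 : xx.2 = s - xx.1 := by rw [hs, ← h1]; ring
    rw [h3, qq, qq, ← ht] at h2
    have h4 : c * xx.1 ^ 2 + vw.1 * xx.1 + vw.2 + (c' * (s - xx.1) ^ 2 + vw'.1 * (s - xx.1) + vw'.2)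
        - t = 0 := by rw [h2]; ring
    rw [← h4]; ring
  · intro xx hxx yy hyy hxy
    rw [Finset.mem_coe, mem_filter] at hxx hyy
    obtain ⟨h1, -⟩ := el_add_cast c c' vw vw' xx.1 xx.2 n hxx.2
    obtain ⟨h2, -⟩ := el_add_cast c c' vw vw' yy.1 yy.2 n hyy.2
    have hxy' : xx.1 = yy.1 := hxy
    refine Prod.ext hxy' ?_
    have h3 : xx.1 + xx.2 = yy.1 + yy.2 := by rw [h1, h2]
    rw [hxy'] at h3
    exact add_left_cancel h3

variable {K : ℕ}

/-- The leading coefficients `1, …, K`. -/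
def cf (p : ℕ) {K : ℕ} (i : Fin K) : ZMod p := ((i.val + 1 : ℕ) : ZMod p)

theorem cf_add_ne (h : 2 * K < p) (i j : Fin K) : cf p i + cf p j ≠ 0 := by
  rw [cf, cf, ← Nat.cast_add]
  intro h0
  rw [ZMod.natCast_eq_zero_iff] at h0
  have h1 := i.isLt
  have h2 := j.isLt
  exact absurd (Nat.le_of_dvd (by omega) h0) (by omega)

theorem cf_ne (h : 2 * K < p) (i : Fin K) : cf p i ≠ 0 := by
  rw [cf]
  intro h0
  rw [ZMod.natCast_eq_zero_iff] at h0
  have h1 := i.isLt
  exact absurd (Nat.le_of_dvd (by omega) h0) (by omega)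

theorem cf_sub_ne (h : 2 * K < p) {i j : Fin K} (hij : i ≠ j) : cf p j - cf p i ≠ 0 := by
  intro h0
  rw [sub_eq_zero, cf, cf] at h0
  have h1 := i.isLt
  have h2 := j.isLt
  rw [ZMod.natCast_eq_natCast_iff', Nat.mod_eq_of_lt (by omega), Nat.mod_eq_of_lt (by omega)] at h0
  exact hij (Fin.ext (by omega))

/-- The finite set at the prime `p`. -/
def AA (ω : Fin K → ZMod p × ZMod p) : Finset ℕ :=
  univ.image (fun ix : Fin K × ZMod p => el (cf p ix.1) (ω ix.1) ix.2)

theorem mem_AA (ω : Fin K → ZMod p × ZMod p) (a : ℕ) :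
    a ∈ AA ω ↔ ∃ i x, el (cf p i) (ω i) x = a := by
  simp [AA]

theorem card_AA_le (ω : Fin K → ZMod p × ZMod p) : (AA ω).card ≤ K * p := by
  refine le_trans Finset.card_image_le ?_
  rw [Finset.card_univ, Fintype.card_prod, Fintype.card_fin, ZMod.card]

/-- The representation function is at most `2 K²`. -/
theorem rep_le (h : 2 * K < p) (ω : Fin K → ZMod p × ZMod p) (n : ℕ) :
    ((AA ω ×ˢ AA ω).filter (fun ab : ℕ × ℕ => ab.1 + ab.2 = n)).card ≤ 2 * K ^ 2 := by
  classical
  set T : Finset ((Fin K × Fin K) × (ZMod p × ZMod p)) := univ.filter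
    (fun z => el (cf p z.1.1) (ω z.1.1) z.2.1 + el (cf p z.1.2) (ω z.1.2) z.2.2 = n) with hT
  have h1 : ((AA ω ×ˢ AA ω).filter (fun ab : ℕ × ℕ => ab.1 + ab.2 = n)).card ≤ T.card := by
    refine le_trans (Finset.card_le_card (t := T.image (fun z =>
      (el (cf p z.1.1) (ω z.1.1) z.2.1, el (cf p z.1.2) (ω z.1.2) z.2.2))) ?_)
      Finset.card_image_le
    intro ab hab
    rw [mem_filter, mem_product, mem_AA, mem_AA] at hab
    obtain ⟨⟨⟨i, x, hx⟩, ⟨j, y, hy⟩⟩, hn⟩ := hab
    rw [mem_image]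
    refine ⟨((i, j), (x, y)), ?_, ?_⟩
    · rw [hT, mem_filter]
      exact ⟨mem_univ _, by rw [← hn, ← hx, ← hy]⟩
    · exact Prod.ext hx hy
  have h2 : T.card ≤ ∑ ij : Fin K × Fin K, 2 := by
    have h3 : T ⊆ (univ : Finset (Fin K × Fin K)).biUnion (fun ij =>
        (univ.filter (fun xx : ZMod p × ZMod p =>
          el (cf p ij.1) (ω ij.1) xx.1 + el (cf p ij.2) (ω ij.2) xx.2 = n)).image
            (fun xx => (ij, xx))) := by
      intro z hz
      rw [hT, mem_filter] at hz
      rw [mem_biUnion]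
      refine ⟨z.1, mem_univ _, ?_⟩
      rw [mem_image]
      exact ⟨z.2, by rw [mem_filter]; exact ⟨mem_univ _, hz.2⟩, rfl⟩
    refine le_trans (Finset.card_le_card h3) (le_trans Finset.card_biUnion_le ?_)
    refine Finset.sum_le_sum (fun ij _ => ?_)
    exact le_trans Finset.card_image_le (card_sol_le _ _ _ _ _ (cf_add_ne h ij.1 ij.2))
  refine h1.trans (h2.trans ?_)
  rw [Finset.sum_const, Finset.card_univ, Fintype.card_prod, Fintype.card_fin, smul_eq_mul]
  nlinarith

theorem el_lt (c : ZMod p) (vw : ZMod p × ZMod p) (x : ZMod p) : el c vw x < 2 * p ^ 2 := by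
  have hx := ZMod.val_lt x
  have hy := ZMod.val_lt (qq c vw x)
  rw [el]
  have h1 : (qq c vw x).val ≤ p - 1 := by omega
  have hp : 0 < p := (Fact.out : p.Prime).pos
  obtain ⟨r, rfl⟩ : ∃ r, p = r + 1 := ⟨p - 1, by omega⟩
  have h2 : (qq c vw x).val ≤ r := by omega
  nlinarith [Nat.mul_le_mul_left (2 * (r + 1)) h2]

end quad

end H83US
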